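import Mathlib

open Finset Polynomial

namespace Pool.Agent.Lib.MP_2064c1_nt

section field
variable {K : Type*} [Field K] {p : ℕ} [hpf : Fact p.Prime] [CharP K p]

omit hpf in
/-- natural numbers below `p` and positive are nonzero in `K`. -/
lemma natCast_ne_zero_of_lt {n : ℕ} (h0 : 0 < n) (hn : n < p) : (n : K) ≠ 0 := by
  intro h
  rw [CharP.cast_eq_zero_iff K p n] at h
  exact absurd (Nat.le_of_dvd h0 h) (by omega)

omit hpf in
lemma centralBinom_eq {N : ℕ} (hN : p = 2 * N + 1) (j : ℕ) (hj : j ≤ N) :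
    (Nat.centralBinom j : K) = (-4) ^ j * (N.choose j : K) := by
  induction j with
  | zero => simp
  | succ j ih =>
    have ih := ih (by omega)
    have h1 : ((j : K) + 1) * (Nat.centralBinom (j + 1) : K)
        = 2 * (2 * j + 1) * (Nat.centralBinom j : K) := by
      have := Nat.succ_mul_centralBinom_succ j
      exact_mod_cast congrArg (Nat.cast : ℕ → K) this
    have h2 : (N.choose (j + 1) : K) * ((j : K) + 1)
        = (N.choose j : K) * ((N : K) - j) := by
      have := Nat.choose_succ_right_eq N j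
      have h3 := congrArg (Nat.cast : ℕ → K) this
      push_cast [Nat.cast_sub (show j ≤ N by omega)] at h3
      exact h3
    have hne : ((j : K) + 1) ≠ 0 := by
      have := natCast_ne_zero_of_lt (K := K) (p := p) (n := j + 1) (by omega) (by omega)
      exact_mod_cast this
    have hp0 : (2 * (N : K) + 1) = 0 := by
      have h : ((2 * N + 1 : ℕ) : K) = 0 := by rw [← hN]; exact CharP.cast_eq_zero K p
      exact_mod_cast h
    apply mul_left_cancel₀ hne
    rw [h1, ih, pow_succ]
    linear_combination (2 * (-4) ^ j * (N.choose j : K)) * hp0 - ((-4) ^ j * (-4)) * h2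

omit hpf in
lemma sum_centralBinom {N : ℕ} (hN : p = 2 * N + 1) (Y : K[X]) :
    ∑ j ∈ range (N + 1), C (Nat.centralBinom j : K) * Y ^ j = (1 - 4 * Y) ^ N := by
  have h : (1 - 4 * Y : K[X]) = (-4 * Y) + 1 := by ring
  rw [h, add_pow]
  apply Finset.sum_congr rfl
  intro j hj
  rw [centralBinom_eq hN j (by simpa [Nat.lt_succ_iff] using hj), one_pow, mul_one, mul_pow]
  simp only [map_mul, map_pow, map_neg, map_natCast]
  have : (C (4 : K) : K[X]) = 4 := map_ofNat C 4
  rw [this]
  ring

/-- the three polynomials. -/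
noncomputable def pA (K : Type*) [Field K] (h : ℕ) : K[X] :=
  ∑ j ∈ (range (3 * h + 1)).erase (2 * h),
    C ((Nat.centralBinom j : K) * (3 * (j : K) + 1)⁻¹) * (X - X ^ 2) ^ (j + 4 * h + 1)

noncomputable def pB (K : Type*) [Field K] (h : ℕ) : K[X] :=
  ∑ k ∈ (range (4 * h + 1)).erase (2 * h),
    C ((-1) ^ k * ((4 * h).choose k : K) * (3 * (k : K) + 1)⁻¹) * X ^ (4 * h + 1 + k)

noncomputable def pL (K : Type*) [Field K] (h : ℕ) : K[X] :=
  ∑ i ∈ range (6 * h), C (((i : K) + 1)⁻¹) * X ^ (i + 1)

omit hpf in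
lemma three_mul_add_one_ne {h : ℕ} (hp : p = 6 * h + 1) {j : ℕ} (hj : j ≤ 4 * h)
    (hj' : j ≠ 2 * h) : (3 * (j : K) + 1) ≠ 0 := by
  intro h0
  have h1 : ((3 * j + 1 : ℕ) : K) = 0 := by exact_mod_cast h0
  rw [CharP.cast_eq_zero_iff K p] at h1
  obtain ⟨t, ht⟩ := h1
  rcases t with _ | _ | t
  · omega
  · omega
  · rw [hp] at ht
    nlinarith

omit hpf in
lemma p_cast {h : ℕ} (hp : p = 6 * h + 1) : (6 * (h : K) + 1) = 0 := by
  have h1 : ((6 * h + 1 : ℕ) : K) = 0 := by rw [← hp]; exact CharP.cast_eq_zero K p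
  exact_mod_cast h1

omit hpf in
lemma derA {h : ℕ} (hp : p = 6 * h + 1) :
    3 * derivative (pA K h) = (1 - 2 * X) *
      ((X - X ^ 2) ^ (4 * h) * (1 - 4 * (X - X ^ 2)) ^ (3 * h)
        - C (Nat.centralBinom (2 * h) : K) * (X - X ^ 2) ^ (6 * h)) := by
  rw [← sum_centralBinom (K := K) (N := 3 * h) (by omega), pA,
    ← Finset.add_sum_erase _ _ (show 2 * h ∈ range (3 * h + 1) by simp; omega)]
  rw [mul_add, show (X - X ^ 2 : K[X]) ^ (4 * h) * (C (Nat.centralBinom (2 * h) : K)
    * (X - X ^ 2) ^ (2 * h)) = C (Nat.centralBinom (2 * h) : K) * (X - X ^ 2) ^ (6 * h) by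
      rw [show 6 * h = 4 * h + 2 * h by ring, pow_add]; ring]
  rw [add_sub_cancel_left, derivative_sum, Finset.mul_sum, Finset.mul_sum, Finset.mul_sum]
  apply Finset.sum_congr rfl
  intro j hj
  rw [Finset.mem_erase, Finset.mem_range] at hj
  have hne := three_mul_add_one_ne (K := K) hp (j := j) (by omega) hj.1
  have h6 := p_cast (K := K) hp
  rw [derivative_C_mul, derivative_pow, derivative_sub, derivative_X, derivative_X_pow]
  simp only [Nat.add_sub_cancel]
  have e1 : (C (((j + 4 * h + 1 : ℕ) : K)) : K[X]) = C ((3 : K)⁻¹ * (3 * (j : K) + 1)) := by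
    congr 1
    push_cast
    have h3 : (3 : K) ≠ 0 := by
      intro h3
      have : (1 : K) = 0 := by linear_combination h6 - 2 * h * h3
      exact one_ne_zero this
    field_simp
    linear_combination 2 * h6
  rw [e1]
  have h3 : (3 : K) ≠ 0 := by
    intro h3
    have : (1 : K) = 0 := by linear_combination h6 - 2 * h * h3
    exact one_ne_zero this
  have e2 : (3 : K[X]) = C (3 : K) := (map_ofNat C 3).symm
  rw [e2]
  have e3 : C (3 : K) * (C ((Nat.centralBinom j : K) * (3 * (j : K) + 1)⁻¹) *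
      (C ((3 : K)⁻¹ * (3 * (j : K) + 1)) * (X - X ^ 2) ^ (j + 4 * h) *
        (1 - C ((2 : ℕ) : K) * X ^ (2 - 1)))) =
      C (3 * ((Nat.centralBinom j : K) * (3 * (j : K) + 1)⁻¹) * ((3 : K)⁻¹ * (3 * (j : K) + 1)))
        * ((X - X ^ 2) ^ (j + 4 * h) * (1 - C ((2 : ℕ) : K) * X ^ (2 - 1))) := by
    simp only [map_mul]; ring
  rw [e3]
  have e4 : 3 * ((Nat.centralBinom j : K) * (3 * (j : K) + 1)⁻¹) * ((3 : K)⁻¹ * (3 * (j : K) + 1))
      = (Nat.centralBinom j : K) := by
    field_simp
  rw [e4, pow_add]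
  have e5 : (C ((2 : ℕ) : K) : K[X]) = 2 := by rw [Nat.cast_ofNat]; exact map_ofNat C 2
  rw [e5]
  ring

omit hpf in
lemma three_ne {h : ℕ} (hp : p = 6 * h + 1) : (3 : K) ≠ 0 := by
  intro h3
  have h6 := p_cast (K := K) hp
  have : (1 : K) = 0 := by linear_combination h6 - 2 * h * h3
  exact one_ne_zero this

omit hpf in
lemma derB {h : ℕ} (hp : p = 6 * h + 1) :
    3 * derivative (pB K h) = X ^ (4 * h) * (1 - X) ^ (4 * h)
        - C (Nat.centralBinom (2 * h) : K) * X ^ (6 * h) := by
  have hb : (1 - X : K[X]) ^ (4 * h) = ∑ k ∈ range (4 * h + 1),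
      C ((-1) ^ k * ((4 * h).choose k : K)) * X ^ k := by
    rw [show (1 - X : K[X]) = (-X) + 1 by ring, add_pow]
    apply Finset.sum_congr rfl
    intro k _
    rw [neg_pow]
    simp only [map_mul, map_pow, map_neg, map_one, map_natCast]
    ring
  have hcb : (Nat.centralBinom (2 * h) : K) = ((-1) ^ (2 * h) * ((4 * h).choose (2 * h) : K)) := by
    rw [Nat.centralBinom_eq_two_mul_choose, show 2 * (2 * h) = 4 * h by ring, pow_mul]
    simp
  rw [hb, pB, ← Finset.add_sum_erase _ _ (show 2 * h ∈ range (4 * h + 1) by simp; omega), hcb]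
  rw [mul_add, show (X : K[X]) ^ (4 * h) * (C ((-1) ^ (2 * h) * ((4 * h).choose (2 * h) : K))
    * X ^ (2 * h)) = C ((-1) ^ (2 * h) * ((4 * h).choose (2 * h) : K)) * X ^ (6 * h) by
      rw [show 6 * h = 4 * h + 2 * h by ring, pow_add]; ring]
  rw [add_sub_cancel_left, derivative_sum, Finset.mul_sum, Finset.mul_sum]
  apply Finset.sum_congr rfl
  intro j hj
  rw [Finset.mem_erase, Finset.mem_range] at hj
  have hne := three_mul_add_one_ne (K := K) hp (j := j) (by omega) hj.1
  have h6 := p_cast (K := K) hp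
  have h3 : (3 : K) ≠ 0 := three_ne hp
  rw [derivative_C_mul, derivative_X_pow]
  have e1 : (C (((4 * h + 1 + j : ℕ) : K)) : K[X]) = C ((3 : K)⁻¹ * (3 * (j : K) + 1)) := by
    congr 1
    push_cast
    field_simp
    linear_combination 2 * h6
  rw [e1, show 4 * h + 1 + j - 1 = 4 * h + j by omega]
  have e2 : (3 : K[X]) = C (3 : K) := (map_ofNat C 3).symm
  rw [e2]
  have e3 : C (3 : K) * (C ((-1) ^ j * ((4 * h).choose j : K) * (3 * (j : K) + 1)⁻¹) *
      (C ((3 : K)⁻¹ * (3 * (j : K) + 1)) * (X : K[X]) ^ (4 * h + j))) =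
      C (3 * ((-1) ^ j * ((4 * h).choose j : K) * (3 * (j : K) + 1)⁻¹)
        * ((3 : K)⁻¹ * (3 * (j : K) + 1))) * X ^ (4 * h + j) := by
    simp only [map_mul]; ring
  rw [e3]
  have e4 : 3 * ((-1) ^ j * ((4 * h).choose j : K) * (3 * (j : K) + 1)⁻¹)
        * ((3 : K)⁻¹ * (3 * (j : K) + 1)) = (-1) ^ j * ((4 * h).choose j : K) := by
    field_simp
  rw [e4, pow_add]
  ring

omit hpf in
lemma derL {h : ℕ} (hp : p = 6 * h + 1) :
    derivative (pL K h) = ∑ i ∈ range (6 * h), (X : K[X]) ^ i := by
  rw [pL, derivative_sum]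
  apply Finset.sum_congr rfl
  intro i hi
  rw [Finset.mem_range] at hi
  rw [derivative_C_mul, derivative_X_pow, Nat.add_sub_cancel, ← mul_assoc, ← C_mul]
  have hne : ((i : K) + 1) ≠ 0 := by
    have := natCast_ne_zero_of_lt (K := K) (p := p) (n := i + 1) (by omega) (by omega)
    exact_mod_cast this
  push_cast
  rw [inv_mul_cancel₀ hne]
  simp

/-- a geometric sum identity in characteristic `p`. -/
lemma one_sub_X_pow {h : ℕ} (hp : p = 6 * h + 1) :
    (1 - X : K[X]) ^ (6 * h) = ∑ i ∈ range (6 * h + 1), (X : K[X]) ^ i := by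
  have : CharP K[X] p := inferInstance
  have h1 : (1 - X : K[X]) ^ p = 1 - X ^ p := by
    rw [sub_pow_char, one_pow]
  have h2 : (1 - X : K[X]) * (1 - X) ^ (6 * h) =
      (1 - X) * ∑ i ∈ range (6 * h + 1), (X : K[X]) ^ i := by
    rw [mul_neg_geom_sum, ← hp, ← h1, hp, pow_succ]
    ring
  have h3 : (1 - X : K[X]) ≠ 0 := by
    intro h0
    have := congrArg (eval 0) h0
    simp at this
  exact mul_left_cancel₀ h3 h2

omit hpf in
/-- a polynomial of degree `< 3p` with zero derivative, vanishing at `0` and `1` and with no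
`X^(2p)` term is zero. -/
lemma eq_zero_of_der {f : K[X]} (hd : derivative f = 0) (hdeg : f.natDegree < 3 * p)
    (h0 : f.eval 0 = 0) (h1 : f.eval 1 = 0) (h2 : f.coeff (2 * p) = 0) : f = 0 := by
  have key : f = C (f.coeff p) * X ^ p := by
    ext n
    rw [coeff_C_mul, coeff_X_pow]
    split_ifs with hn
    · rw [hn, mul_one]
    · rw [mul_zero]
      rcases Nat.eq_zero_or_pos n with rfl | hn0
      · rw [coeff_zero_eq_eval_zero, h0]
      · by_cases hdvd : p ∣ n
        · obtain ⟨t, rfl⟩ := hdvd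
          rcases t with _ | _ | _ | t
          · omega
          · simp at hn
          · rw [show p * (0 + 1 + 1) = 2 * p by ring]; exact h2
          · apply coeff_eq_zero_of_natDegree_lt
            refine lt_of_lt_of_le hdeg ?_
            nlinarith
        · obtain ⟨m, rfl⟩ : ∃ m, n = m + 1 := ⟨n - 1, by omega⟩
          have h3 := congrArg (fun q => coeff q m) hd
          simp only [coeff_derivative, coeff_zero] at h3
          rcases mul_eq_zero.mp h3 with h4 | h4
          · exact h4
          · exfalso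
            apply hdvd
            rw [← CharP.cast_eq_zero_iff K p]
            exact_mod_cast h4
  have h3 : f.coeff p = 0 := by
    have := congrArg (eval 1) key
    rw [h1] at this
    simpa using this.symm
  rw [key, h3]
  simp

omit hpf in
lemma inv_refl {h : ℕ} (hp : p = 6 * h + 1) (k : ℕ) (hk : k ≤ 4 * h) :
    (-1 : K) ^ (4 * h - k) * ((4 * h).choose (4 * h - k) : K) * (3 * ((4 * h - k : ℕ) : K) + 1)⁻¹
      = - ((-1) ^ k * ((4 * h).choose k : K) * (3 * (k : K) + 1)⁻¹) := by
  have h6 := p_cast (K := K) hp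
  rw [Nat.choose_symm hk, Nat.cast_sub hk]
  have e1 : (-1 : K) ^ (4 * h - k) = (-1) ^ k := by
    have : (-1 : K) ^ (4 * h - k) * (-1) ^ k = 1 := by
      rw [← pow_add, Nat.sub_add_cancel hk, show 4 * h = 2 * (2 * h) by ring, pow_mul]; simp
    have h2 : (-1 : K) ^ k * (-1) ^ k = 1 := by
      rw [← pow_add, ← two_mul, pow_mul]; simp
    have h3 : (-1 : K) ^ k ≠ 0 := by
      intro h0; rw [h0] at h2; simp at h2
    exact mul_right_cancel₀ h3 (this.trans h2.symm)
  have e2 : (3 * (((4 * h : ℕ) : K) - (k : K)) + 1) = - (3 * (k : K) + 1) := by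
    push_cast
    linear_combination 2 * h6
  rw [e1, e2, inv_neg]
  ring

omit hpf in
lemma sum_erase_refl {M : Type*} [AddCommMonoid M] (h : ℕ) (f : ℕ → M) :
    ∑ k ∈ (range (4 * h + 1)).erase (2 * h), f k
      = ∑ k ∈ (range (4 * h + 1)).erase (2 * h), f (4 * h - k) := by
  apply Finset.sum_nbij' (fun k => 4 * h - k) (fun k => 4 * h - k)
  · intro k hk
    simp only [Finset.mem_erase, Finset.mem_range] at hk ⊢
    omega
  · intro k hk
    simp only [Finset.mem_erase, Finset.mem_range] at hk ⊢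
    omega
  · intro k hk
    simp only [Finset.mem_erase, Finset.mem_range] at hk
    omega
  · intro k hk
    simp only [Finset.mem_erase, Finset.mem_range] at hk
    omega
  · intro k hk
    simp only [Finset.mem_erase, Finset.mem_range] at hk
    congr 1
    omega

omit hpf in
lemma two_ne {h : ℕ} (hp : p = 6 * h + 1) : (2 : K) ≠ 0 := by
  intro h3
  have h6 := p_cast (K := K) hp
  have : (1 : K) = 0 := by linear_combination h6 - 3 * h * h3
  exact one_ne_zero this

omit hpf in
lemma evalB_one {h : ℕ} (hp : p = 6 * h + 1) : (pB K h).eval 1 = 0 := by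
  have h1 : (pB K h).eval 1 = - (pB K h).eval 1 := by
    conv_lhs => rw [pB]
    conv_rhs => rw [pB]
    simp only [eval_finsetSum, eval_mul, eval_C, eval_pow, eval_X, one_pow, mul_one]
    conv_lhs => rw [sum_erase_refl]
    rw [← Finset.sum_neg_distrib]
    apply Finset.sum_congr rfl
    intro k hk
    simp only [Finset.mem_erase, Finset.mem_range] at hk
    exact inv_refl hp k (by omega)
  have h2 := two_ne (K := K) hp
  have h3 : (2 : K) * (pB K h).eval 1 = 0 := by linear_combination h1
  rcases mul_eq_zero.mp h3 with h4 | h4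
  · exact absurd h4 h2
  · exact h4

omit hpf in
lemma evalB_zeta {h : ℕ} (hp : p = 6 * h + 1) {z : K} (hz : z * (1 - z) = 1) (hzp : z ^ p = z) :
    (pB K h).eval z = - z ^ 2 * (pB K h).eval (1 - z) := by
  rw [pB]
  simp only [eval_finsetSum, eval_mul, eval_C, eval_pow, eval_X]
  rw [sum_erase_refl, Finset.mul_sum]
  apply Finset.sum_congr rfl
  intro k hk
  simp only [Finset.mem_erase, Finset.mem_range] at hk
  rw [inv_refl hp k (by omega)]
  have e1 : z ^ (4 * h + 1 + (4 * h - k)) = z ^ 2 * (1 - z) ^ (4 * h + 1 + k) := by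
    have e2 : z ^ (4 * h + 1 + (4 * h - k)) * z ^ (4 * h + 1 + k) = z ^ 2 := by
      rw [← pow_add, show 4 * h + 1 + (4 * h - k) + (4 * h + 1 + k) = p * 2 by omega, pow_mul, hzp]
    calc z ^ (4 * h + 1 + (4 * h - k)) = z ^ (4 * h + 1 + (4 * h - k)) *
          (z * (1 - z)) ^ (4 * h + 1 + k) := by rw [hz, one_pow, mul_one]
      _ = (z ^ (4 * h + 1 + (4 * h - k)) * z ^ (4 * h + 1 + k)) * (1 - z) ^ (4 * h + 1 + k) := by
          rw [mul_pow]; ring
      _ = _ := by rw [e2]
  rw [e1]
  ring

omit hpf in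
lemma evalL_one {h : ℕ} (hp : p = 6 * h + 1) : (pL K h).eval 1 = 0 := by
  have h6 := p_cast (K := K) hp
  have h1 : (pL K h).eval 1 = - (pL K h).eval 1 := by
    conv_lhs => rw [pL]
    conv_rhs => rw [pL]
    simp only [eval_finsetSum, eval_mul, eval_C, eval_pow, eval_X, one_pow, mul_one]
    conv_lhs => rw [← Finset.sum_range_reflect]
    rw [← Finset.sum_neg_distrib]
    apply Finset.sum_congr rfl
    intro k hk
    rw [Finset.mem_range] at hk
    rw [← inv_neg]
    congr 1
    have : ((6 * h - 1 - k : ℕ) : K) + (k : K) + 1 = 6 * (h : K) := by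
      have h7 : (6 * h - 1 - k) + k + 1 = 6 * h := by omega
      exact_mod_cast congrArg (Nat.cast : ℕ → K) h7
    linear_combination this + h6
  have h2 := two_ne (K := K) hp
  have h3 : (2 : K) * (pL K h).eval 1 = 0 := by linear_combination h1
  rcases mul_eq_zero.mp h3 with h4 | h4
  · exact absurd h4 h2
  · exact h4

omit hpf in
lemma evalB_zero {h : ℕ} : (pB K h).eval 0 = 0 := by
  rw [pB]
  simp only [eval_finsetSum, eval_mul, eval_C, eval_pow, eval_X]
  apply Finset.sum_eq_zero
  intro k _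
  rw [show 4 * h + 1 + k = (4 * h + k) + 1 by ring, pow_succ]
  simp

omit hpf in
lemma evalL_zero {h : ℕ} : (pL K h).eval 0 = 0 := by
  rw [pL]
  simp only [eval_finsetSum, eval_mul, eval_C, eval_pow, eval_X]
  apply Finset.sum_eq_zero
  intro k _
  simp

omit hpf in
lemma degB {h : ℕ} : (pB K h).natDegree ≤ 8 * h + 1 := by
  rw [pB]
  apply natDegree_sum_le_of_forall_le
  intro k hk
  simp only [Finset.mem_erase, Finset.mem_range] at hk
  refine (natDegree_C_mul_X_pow_le _ _).trans (by omega)

omit hpf in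
lemma degL {h : ℕ} : (pL K h).natDegree ≤ 6 * h := by
  rw [pL]
  apply natDegree_sum_le_of_forall_le
  intro k hk
  simp only [Finset.mem_range] at hk
  refine (natDegree_C_mul_X_pow_le _ _).trans (by omega)

omit hpf in
lemma degXX : (X - X ^ 2 : K[X]).natDegree ≤ 2 := by
  refine (natDegree_sub_le _ _).trans ?_
  simp

omit hpf in
lemma degA {h : ℕ} : (pA K h).natDegree ≤ 14 * h + 2 := by
  rw [pA]
  apply natDegree_sum_le_of_forall_le
  intro k hk
  simp only [Finset.mem_erase, Finset.mem_range] at hk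
  refine (natDegree_C_mul_le _ _).trans ?_
  refine (natDegree_pow_le).trans ?_
  have := degXX (K := K)
  nlinarith

include hpf in
/-- `B(X) + B(1-X) = (c/3) L(X)`. -/
lemma identG {h : ℕ} (hp : p = 6 * h + 1) :
    3 * pB K h + 3 * (pB K h).comp (1 - X)
      - C (Nat.centralBinom (2 * h) : K) * pL K h = 0 := by
  apply eq_zero_of_der (p := p)
  · have e1 : derivative ((3 : K[X]) * pB K h + 3 * (pB K h).comp (1 - X)
      - C (Nat.centralBinom (2 * h) : K) * pL K h) = 3 * derivative (pB K h)
        - (3 * derivative (pB K h)).comp (1 - X)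
        - C (Nat.centralBinom (2 * h) : K) * derivative (pL K h) := by
      simp only [derivative_add, derivative_sub, derivative_mul, derivative_comp, derivative_C,
        derivative_ofNat, derivative_one, derivative_X, mul_comp, ofNat_comp]
      ring
    rw [e1, derB hp, derL hp]
    simp only [sub_comp, mul_comp, pow_comp, X_comp, one_comp, C_comp]
    have h1 := one_sub_X_pow (K := K) hp
    rw [Finset.sum_range_succ] at h1
    rw [h1, show (1 - (1 - X) : K[X]) = X by ring]
    ring
  · have h1 := degB (K := K) (h := h)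
    have h2 := degL (K := K) (h := h)
    have h3 : (1 - X : K[X]).natDegree ≤ 1 := by
      refine (natDegree_sub_le _ _).trans ?_
      simp
    have h0 : 0 < h := by
      rcases Nat.eq_zero_or_pos h with rfl | h'
      · exfalso; exact hpf.out.one_lt.ne' (by omega)
      · exact h'
    refine lt_of_le_of_lt (b := 8 * h + 1) ?_ (by omega)
    have e3 : (3 : K[X]) = C (3 : K) := (map_ofNat C 3).symm
    rw [e3]
    refine (natDegree_sub_le_of_le (m := 8 * h + 1) (n := 8 * h + 1) ?_ ?_).trans (by simp)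
    · refine (natDegree_add_le_of_le (m := 8 * h + 1) (n := 8 * h + 1) ?_ ?_).trans (by simp)
      · exact (natDegree_C_mul_le _ _).trans h1
      · refine (natDegree_C_mul_le _ _).trans ?_
        refine natDegree_comp_le.trans ?_
        nlinarith
    · refine (natDegree_C_mul_le _ _).trans ?_
      omega
  · simp only [eval_sub, eval_add, eval_mul, eval_comp, eval_ofNat, eval_one, eval_X, eval_C,
      sub_zero, evalB_zero, evalB_one hp, evalL_zero, mul_zero, add_zero]
  · simp only [eval_sub, eval_add, eval_mul, eval_comp, eval_ofNat, eval_one, eval_X, eval_C,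
      sub_self, evalB_zero, evalB_one hp, evalL_one hp, mul_zero, add_zero]
  · have h1 := degB (K := K) (h := h)
    have h2 := degL (K := K) (h := h)
    have h3 : (1 - X : K[X]).natDegree ≤ 1 := by
      refine (natDegree_sub_le _ _).trans ?_
      simp
    apply coeff_eq_zero_of_natDegree_lt
    refine lt_of_le_of_lt (b := 8 * h + 1) ?_ (by omega)
    have e3 : (3 : K[X]) = C (3 : K) := (map_ofNat C 3).symm
    rw [e3]
    refine (natDegree_sub_le_of_le (m := 8 * h + 1) (n := 8 * h + 1) ?_ ?_).trans (by simp)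
    · refine (natDegree_add_le_of_le (m := 8 * h + 1) (n := 8 * h + 1) ?_ ?_).trans (by simp)
      · exact (natDegree_C_mul_le _ _).trans h1
      · refine (natDegree_C_mul_le _ _).trans ?_
        refine natDegree_comp_le.trans ?_
        nlinarith
    · refine (natDegree_C_mul_le _ _).trans ?_
      omega

lemma coeffA {h : ℕ} (hp : p = 6 * h + 1) : (pA K h).coeff (2 * p) = 0 := by
  rw [pA, finsetSum_coeff]
  apply Finset.sum_eq_zero
  intro j hj
  simp only [Finset.mem_erase, Finset.mem_range] at hj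
  rw [coeff_C_mul]
  have key : ((X - X ^ 2 : K[X]) ^ (j + 4 * h + 1)).coeff (2 * p) = 0 := by
    rcases lt_or_gt_of_ne hj.1 with h1 | h1
    · apply coeff_eq_zero_of_natDegree_lt
      refine lt_of_le_of_lt (natDegree_pow_le) ?_
      have := degXX (K := K)
      nlinarith
    · obtain ⟨i, hi⟩ : ∃ i, j = 2 * h + i := ⟨j - 2 * h, by omega⟩
      rw [show j + 4 * h + 1 = p + i by omega, pow_add]
      have : CharP K[X] p := inferInstance
      rw [sub_pow_char, ← pow_mul, sub_mul, coeff_sub, coeff_X_pow_mul', coeff_X_pow_mul',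
        if_pos (by omega), if_pos (by omega)]
      rw [show 2 * p - 2 * p = 0 by omega, show 2 * p - p = p by omega]
      have h2 : ((X - X ^ 2 : K[X]) ^ i).coeff p = 0 := by
        apply coeff_eq_zero_of_natDegree_lt
        refine lt_of_le_of_lt (natDegree_pow_le) ?_
        have := degXX (K := K)
        nlinarith
      have h3 : ((X - X ^ 2 : K[X]) ^ i).coeff 0 = 0 := by
        rw [coeff_zero_eq_eval_zero]
        simp only [eval_pow, eval_sub, eval_X]
        have hi0 : i ≠ 0 := by omega
        simp [hi0]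
      rw [h2, h3, sub_zero]
  rw [key, mul_zero]

omit hpf [CharP K p] in
lemma coeffB {h : ℕ} (hp : p = 6 * h + 1) : (pB K h).coeff p = 0 := by
  rw [pB, finsetSum_coeff]
  apply Finset.sum_eq_zero
  intro j hj
  simp only [Finset.mem_erase, Finset.mem_range] at hj
  rw [coeff_C_mul_X_pow, if_neg (by omega)]

/-- `A(X) = (1 - 2 X^p) B(X) + (c/3) X^p L(X)`. -/
lemma identF {h : ℕ} (hp : p = 6 * h + 1) :
    3 * pA K h - 3 * (1 - 2 * X ^ p) * pB K h
      - C (Nat.centralBinom (2 * h) : K) * X ^ p * pL K h = 0 := by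
  have h0 : 0 < h := by
    rcases Nat.eq_zero_or_pos h with rfl | h'
    · exfalso; exact hpf.out.one_lt.ne' (by omega)
    · exact h'
  have dA := degA (K := K) (h := h)
  have dB := degB (K := K) (h := h)
  have dL := degL (K := K) (h := h)
  have e3 : (3 : K[X]) = C (3 : K) := (map_ofNat C 3).symm
  have e2 : (2 : K[X]) = C (2 : K) := (map_ofNat C 2).symm
  apply eq_zero_of_der (p := p)
  · have hpK : ((p : ℕ) : K[X]) = 0 := CharP.cast_eq_zero K[X] p
    have e1 : derivative (3 * pA K h - 3 * (1 - 2 * X ^ p) * pB K h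
      - C (Nat.centralBinom (2 * h) : K) * X ^ p * pL K h) = 3 * derivative (pA K h)
        - (1 - 2 * X ^ p) * (3 * derivative (pB K h))
        - C (Nat.centralBinom (2 * h) : K) * X ^ p * derivative (pL K h) := by
      simp only [derivative_sub, derivative_mul,
        derivative_ofNat, derivative_one, derivative_X_pow, map_natCast, hpK, derivative_natCast]
      ring
    rw [e1, derA hp, derB hp, derL hp]
    have h1 := one_sub_X_pow (K := K) hp
    rw [Finset.sum_range_succ] at h1
    have : CharP K[X] p := inferInstance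
    have h2 : (1 - 2 * X : K[X]) * (1 - 4 * (X - X ^ 2)) ^ (3 * h) = 1 - 2 * X ^ p := by
      have h21 : (1 - 4 * (X - X ^ 2) : K[X]) = (1 - 2 * X) ^ 2 := by ring
      rw [h21, ← pow_mul, ← pow_succ', show 2 * (3 * h) + 1 = p by omega, sub_pow_char, one_pow,
        mul_pow]
      congr 2
      have h22 : (2 : K[X]) = ((2 : ℕ) : K[X]) := by norm_num
      rw [h22, ← Nat.cast_pow]
      have h23 : (2 : ZMod p) ^ p = 2 := ZMod.pow_card 2
      have h24 : ((2 ^ p : ℕ) : ZMod p) = ((2 : ℕ) : ZMod p) := by push_cast; exact h23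
      rw [ZMod.natCast_eq_natCast_iff] at h24
      exact (CharP.cast_eq_iff_mod_eq K[X] p).mpr h24
    have h3 : (X - X ^ 2 : K[X]) ^ (6 * h) = X ^ (6 * h) * (1 - X) ^ (6 * h) := by
      rw [← mul_pow]; ring
    have h4 : (X - X ^ 2 : K[X]) ^ (4 * h) = X ^ (4 * h) * (1 - X) ^ (4 * h) := by
      rw [← mul_pow]; ring
    have h5 : (X : K[X]) ^ p = X * X ^ (6 * h) := by rw [hp, pow_succ]; ring
    have h6 : (1 - X : K[X]) * ∑ i ∈ range (6 * h), X ^ i = 1 - X ^ (6 * h) :=
      mul_neg_geom_sum _ _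
    rw [h3, h4, h5]
    rw [h5] at h2
    linear_combination (X ^ (4 * h) * (1 - X) ^ (4 * h)) * h2
      - (1 - 2 * X) * C (Nat.centralBinom (2 * h) : K) * X ^ (6 * h) * h1
      - C (Nat.centralBinom (2 * h) : K) * X ^ (6 * h) * h6
  · rw [e3]
    refine lt_of_le_of_lt (b := 14 * h + 2) ?_ (by omega)
    refine (natDegree_sub_le_of_le (m := 14 * h + 2) (n := 14 * h + 2) ?_ ?_).trans (by simp)
    · refine (natDegree_sub_le_of_le (m := 14 * h + 2) (n := 14 * h + 2) ?_ ?_).trans (by simp)
      · exact (natDegree_C_mul_le _ _).trans dA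
      · rw [mul_assoc]
        refine (natDegree_C_mul_le _ _).trans ?_
        refine natDegree_mul_le.trans ?_
        have h1 : (1 - 2 * X ^ p : K[X]).natDegree ≤ p := by
          rw [e2]
          refine (natDegree_sub_le _ _).trans ?_
          rw [natDegree_one]
          exact max_le (by omega) (natDegree_C_mul_X_pow_le _ _)
        omega
    · rw [mul_assoc]
      refine (natDegree_C_mul_le _ _).trans ?_
      refine natDegree_mul_le.trans ?_
      rw [natDegree_X_pow]
      omega
  · simp only [eval_sub, eval_mul, eval_ofNat, eval_one, eval_X, eval_C, eval_pow,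
      evalB_zero, evalL_zero, mul_zero, sub_zero, pA, eval_finsetSum]
    rw [Finset.sum_eq_zero, mul_zero]
    intro j _
    rw [show j + 4 * h + 1 = (j + 4 * h) + 1 by ring, pow_succ]
    simp
  · simp only [eval_sub, eval_mul, eval_ofNat, eval_one, eval_X, eval_C, eval_pow,
      evalB_one hp, evalL_one hp, mul_zero, sub_zero, pA, eval_finsetSum]
    rw [Finset.sum_eq_zero, mul_zero]
    intro j _
    rw [show j + 4 * h + 1 = (j + 4 * h) + 1 by ring, pow_succ]
    simp
  · have e4 : 3 * (1 - 2 * X ^ p) * pB K h = C 3 * pB K h - X ^ p * (C 6 * pB K h) := by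
      have e6 : (6 : K[X]) = C (6 : K) := (map_ofNat C 6).symm
      rw [← e3, ← e6]; ring
    rw [coeff_sub, coeff_sub, e4, e3, coeff_C_mul, coeffA hp, coeff_sub, coeff_C_mul,
      coeff_X_pow_mul', if_pos (by omega), show 2 * p - p = p by omega, coeff_C_mul, coeffB hp,
      mul_assoc, coeff_C_mul, coeff_X_pow_mul', if_pos (by omega), show 2 * p - p = p by omega,
      coeff_eq_zero_of_natDegree_lt (show (pB K h).natDegree < 2 * p by omega),
      coeff_eq_zero_of_natDegree_lt (show (pL K h).natDegree < p by omega)]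
    simp

/-- The core congruence: over a field of characteristic `p = 6h+1` with a primitive sixth root of
unity fixed by Frobenius. -/
lemma core_sum {h : ℕ} (hp : p = 6 * h + 1) {z : K} (hz : z * (1 - z) = 1) (hzp : z ^ p = z) :
    ∑ j ∈ (range (3 * h + 1)).erase (2 * h),
      (Nat.centralBinom j : K) * (3 * (j : K) + 1)⁻¹ = 0 := by
  have hF := congrArg (eval z) (identF (K := K) hp)
  have hG := congrArg (eval z) (identG (K := K) hp)
  have hB := evalB_zeta (K := K) hp hz hzp
  simp only [eval_sub, eval_mul, eval_ofNat, eval_one, eval_X, eval_C, eval_pow, eval_add,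
    eval_comp, eval_zero, hzp] at hF hG
  have hA : (pA K h).eval z = ∑ j ∈ (range (3 * h + 1)).erase (2 * h),
      (Nat.centralBinom j : K) * (3 * (j : K) + 1)⁻¹ := by
    simp only [pA, eval_finsetSum, eval_mul, eval_C, eval_pow, eval_sub, eval_X]
    apply Finset.sum_congr rfl
    intro j _
    rw [show z - z ^ 2 = z * (1 - z) by ring, hz, one_pow, mul_one]
  rw [← hA]
  have h3 := three_ne (K := K) hp
  apply mul_left_cancel₀ h3
  rw [mul_zero]
  linear_combination hF - z * hG + 3 * (1 - z) * hB - 3 * z * (eval (1 - z) (pB K h)) * hz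

end field

end Pool.Agent.Lib.MP_2064c1_nt
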