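import Mathlib
import Pool.Agent.Lib.MP_2064c1_nt.Core

open Finset

namespace Pool.Agent.Lib.MP_2064c1_nt

/-- the terms of the transformed sum. -/
def tt (p j : ℕ) : ℕ := (3 * j).choose j * (2 * j).choose j * (p + j).choose (3 * j + 1)

lemma term_eq (n j : ℕ) :
    (n + j).choose j * n.choose j * (n - j).choose j
      = (3 * j).choose j * (2 * j).choose j * (n + j).choose (3 * j) := by
  have h1 := Nat.choose_mul (n := n + j) (k := 3 * j) (s := j) (by omega)
  have h2 := Nat.choose_mul (n := n) (k := 2 * j) (s := j) (by omega)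
  rw [show n + j - j = n by omega, show 3 * j - j = 2 * j by omega] at h1
  rw [show 2 * j - j = j by omega] at h2
  calc (n + j).choose j * n.choose j * (n - j).choose j
      = (n + j).choose j * (n.choose j * (n - j).choose j) := by ring
    _ = (n + j).choose j * (n.choose (2 * j) * (2 * j).choose j) := by rw [h2]
    _ = ((n + j).choose j * n.choose (2 * j)) * (2 * j).choose j := by ring
    _ = ((n + j).choose (3 * j) * (3 * j).choose j) * (2 * j).choose j := by rw [h1]
    _ = _ := by ring

lemma hockey (P j : ℕ) : ∑ n ∈ range P, (n + j).choose (3 * j) = (P + j).choose (3 * j + 1) := by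
  induction P with
  | zero => simp; rw [Nat.choose_eq_zero_of_lt]; omega
  | succ P ih =>
    rw [Finset.sum_range_succ, ih, show P + 1 + j = (P + j) + 1 by ring, Nat.choose_succ_succ]
    ring

lemma sum_eq {h p : ℕ} (hp : p = 6 * h + 1) :
    ∑ n ∈ range p, ∑ j ∈ range (n + 1), (n + j).choose j * n.choose j * (n - j).choose j
      = ∑ j ∈ range (3 * h + 1), tt p j := by
  have h1 : ∀ n ∈ range p, ∑ j ∈ range (n + 1), (n + j).choose j * n.choose j * (n - j).choose j
      = ∑ j ∈ range (3 * h + 1), (3 * j).choose j * (2 * j).choose j * (n + j).choose (3 * j) := by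
    intro n hn
    rw [Finset.mem_range] at hn
    simp only [term_eq]
    have h2 : ∑ j ∈ range (n + 1), (3 * j).choose j * (2 * j).choose j * (n + j).choose (3 * j)
      = ∑ j ∈ range (n + 1 + (3 * h + 1)),
        (3 * j).choose j * (2 * j).choose j * (n + j).choose (3 * j) := by
      apply Finset.sum_subset
      · intro x hx; rw [Finset.mem_range] at *; omega
      · intro x _ hx
        rw [Finset.mem_range, not_lt] at hx
        rw [Nat.choose_eq_zero_of_lt (show n + x < 3 * x by omega), mul_zero]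
    have h3 : ∑ j ∈ range (3 * h + 1), (3 * j).choose j * (2 * j).choose j * (n + j).choose (3 * j)
      = ∑ j ∈ range (n + 1 + (3 * h + 1)),
        (3 * j).choose j * (2 * j).choose j * (n + j).choose (3 * j) := by
      apply Finset.sum_subset
      · intro x hx; rw [Finset.mem_range] at *; omega
      · intro x _ hx
        rw [Finset.mem_range, not_lt] at hx
        rw [Nat.choose_eq_zero_of_lt (show n + x < 3 * x by omega), mul_zero]
    rw [h2, h3]
  rw [Finset.sum_congr rfl h1, Finset.sum_comm]
  apply Finset.sum_congr rfl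
  intro j _
  rw [← Finset.mul_sum, hockey]
  rfl

/-- product formula for the terms. -/
lemma tt_mul {h p : ℕ} (hp : p = 6 * h + 1) {j : ℕ} (hj : j ≤ 3 * h) :
    tt p j * ((3 * j + 1) * (j.factorial) ^ 3)
      = p * ((p + 1).ascFactorial j * (p - 1).descFactorial (2 * j)) := by
  have a1 : (p + j).choose (3 * j + 1) * (3 * j + 1).factorial * (p - 1 - 2 * j).factorial
      = (p + j).factorial := by
    have := Nat.choose_mul_factorial_mul_factorial (n := p + j) (k := 3 * j + 1) (by omega)
    rw [show p + j - (3 * j + 1) = p - 1 - 2 * j by omega] at this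
    exact this
  have a2 : p.factorial * (p + 1).ascFactorial j = (p + j).factorial :=
    Nat.factorial_mul_ascFactorial p j
  have a3 : p.factorial = p * (p - 1).factorial := (Nat.mul_factorial_pred (by omega)).symm
  have a4 : (p - 1 - 2 * j).factorial * (p - 1).descFactorial (2 * j) = (p - 1).factorial :=
    Nat.factorial_mul_descFactorial (by omega)
  have a5 : (3 * j).choose j * j.factorial * (2 * j).factorial = (3 * j).factorial := by
    have := Nat.choose_mul_factorial_mul_factorial (n := 3 * j) (k := j) (by omega)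
    rw [show 3 * j - j = 2 * j by omega] at this
    exact this
  have a6 : (2 * j).choose j * j.factorial * j.factorial = (2 * j).factorial := by
    have := Nat.choose_mul_factorial_mul_factorial (n := 2 * j) (k := j) (by omega)
    rw [show 2 * j - j = j by omega] at this
    exact this
  have a7 : (3 * j + 1).factorial = (3 * j + 1) * (3 * j).factorial := Nat.factorial_succ _
  have hpos : 0 < (p - 1 - 2 * j).factorial := Nat.factorial_pos _
  apply Nat.eq_of_mul_eq_mul_right hpos
  unfold tt
  calc (3 * j).choose j * (2 * j).choose j * (p + j).choose (3 * j + 1) *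
        ((3 * j + 1) * j.factorial ^ 3) * (p - 1 - 2 * j).factorial
      = (p + j).choose (3 * j + 1) * ((3 * j + 1) * ((3 * j).choose j * j.factorial *
        ((2 * j).choose j * j.factorial * j.factorial))) * (p - 1 - 2 * j).factorial := by ring
    _ = (p + j).factorial := by rw [a6, a5, ← a7, a1]
    _ = p * ((p + 1).ascFactorial j) * (p - 1).factorial := by rw [← a2, a3]; ring
    _ = p * ((p + 1).ascFactorial j) * ((p - 1 - 2 * j).factorial *
        (p - 1).descFactorial (2 * j)) := by rw [a4]
    _ = _ := by ring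

lemma asc_cast {p : ℕ} (j : ℕ) :
    (((p + 1).ascFactorial j : ℕ) : ZMod p) = (j.factorial : ZMod p) := by
  rw [Nat.ascFactorial_eq_prod_range, ← Finset.prod_range_add_one_eq_factorial]
  push_cast
  apply Finset.prod_congr rfl
  intro i _
  rw [ZMod.natCast_self]
  ring

lemma desc_cast {p : ℕ} (j : ℕ) (hj : 2 * j ≤ p - 1) (hp : 0 < p) :
    (((p - 1).descFactorial (2 * j) : ℕ) : ZMod p) = ((2 * j).factorial : ZMod p) := by
  rw [Nat.descFactorial_eq_prod_range, ← Finset.prod_range_add_one_eq_factorial]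
  push_cast
  have : ∀ i ∈ range (2 * j), (((p - 1 - i : ℕ) : ZMod p)) = (-1) * ((i : ZMod p) + 1) := by
    intro i hi
    rw [Finset.mem_range] at hi
    have h1 : (p - 1 - i) + (i + 1) = p := by omega
    have h2 := congrArg (Nat.cast : ℕ → ZMod p) h1
    push_cast [ZMod.natCast_self] at h2
    linear_combination h2
  rw [Finset.prod_congr rfl this, Finset.prod_mul_distrib, Finset.prod_const, Finset.card_range,
    pow_mul]
  simp

/-- the regular terms are divisible by `p`, with quotient known mod `p`. -/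
lemma tt_regular {h p : ℕ} [hpf : Fact p.Prime] (hp : p = 6 * h + 1) {j : ℕ} (hj : j ≤ 3 * h)
    (hj' : j ≠ 2 * h) :
    ∃ q : ℕ, tt p j = p * q ∧
      (q : ZMod p) = (Nat.centralBinom j : ZMod p) * (3 * (j : ZMod p) + 1)⁻¹ := by
  have hppos : 0 < p := hpf.out.pos
  have hmul := tt_mul hp hj
  have hne : (3 * (j : ZMod p) + 1) ≠ 0 := three_mul_add_one_ne (K := ZMod p) hp (by omega) hj'
  have hfne : (j.factorial : ZMod p) ≠ 0 := by
    rw [Ne, ZMod.natCast_eq_zero_iff, hpf.out.dvd_factorial]
    omega
  have hdvd : p ∣ tt p j := by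
    have h1 : p ∣ tt p j * ((3 * j + 1) * (j.factorial) ^ 3) := by
      rw [hmul]; exact dvd_mul_right _ _
    rcases hpf.out.dvd_mul.mp h1 with h2 | h2
    · exact h2
    · exfalso
      rw [← ZMod.natCast_eq_zero_iff] at h2
      push_cast at h2
      rcases mul_eq_zero.mp h2 with h3 | h3
      · exact hne h3
      · exact hfne (pow_eq_zero_iff (by norm_num) |>.mp h3)
  obtain ⟨q, hq⟩ := hdvd
  refine ⟨q, hq, ?_⟩
  rw [hq] at hmul
  have h2 : q * ((3 * j + 1) * (j.factorial) ^ 3)
      = (p + 1).ascFactorial j * (p - 1).descFactorial (2 * j) := by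
    apply Nat.eq_of_mul_eq_mul_left hppos
    rw [← hmul]; ring
  have h3 := congrArg (Nat.cast : ℕ → ZMod p) h2
  rw [Nat.cast_mul ((p + 1).ascFactorial j), asc_cast, desc_cast j (by omega) hppos] at h3
  have a6 : (Nat.centralBinom j) * j.factorial * j.factorial = (2 * j).factorial := by
    have := Nat.choose_mul_factorial_mul_factorial (n := 2 * j) (k := j) (by omega)
    rw [show 2 * j - j = j by omega] at this
    rw [Nat.centralBinom_eq_two_mul_choose]
    exact this
  rw [← a6] at h3
  push_cast at h3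
  have h4 : (j.factorial : ZMod p) ^ 3 ≠ 0 := pow_ne_zero 3 hfne
  apply mul_right_cancel₀ h4
  apply mul_right_cancel₀ hne
  rw [mul_assoc, mul_assoc, mul_assoc]
  have h5 : (3 * (j : ZMod p) + 1)⁻¹ * ((j.factorial : ZMod p) ^ 3 * (3 * (j : ZMod p) + 1))
      = (j.factorial : ZMod p) ^ 3 := by
    field_simp
  rw [h5]
  linear_combination h3

/-- the exceptional term. -/
lemma tt_exceptional {h p : ℕ} [hpf : Fact p.Prime] (hp : p = 6 * h + 1) :
    (tt p (2 * h) : ZMod (p ^ 2)) = (Nat.centralBinom (2 * h) : ZMod (p ^ 2)) := by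
  have hppos : 0 < p := hpf.out.pos
  have hmul := tt_mul hp (j := 2 * h) (by omega)
  rw [show 3 * (2 * h) + 1 = p by omega] at hmul
  have h1 : tt p (2 * h) * (2 * h).factorial ^ 3
      = (p + 1).ascFactorial (2 * h) * (p - 1).descFactorial (2 * (2 * h)) := by
    apply Nat.eq_of_mul_eq_mul_left hppos
    rw [← hmul]; ring
  have b1 : (2 * h).factorial * (p - 1).descFactorial (2 * (2 * h)) = (p - 1).factorial := by
    have := Nat.factorial_mul_descFactorial (n := p - 1) (k := 2 * (2 * h)) (by omega)
    rw [show p - 1 - 2 * (2 * h) = 2 * h by omega] at this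
    exact this
  have b2 : (2 * (2 * h)).factorial * (p - 1).descFactorial (2 * h) = (p - 1).factorial := by
    have := Nat.factorial_mul_descFactorial (n := p - 1) (k := 2 * h) (by omega)
    rw [show p - 1 - 2 * h = 2 * (2 * h) by omega] at this
    exact this
  have h2 : (2 * h).factorial * (tt p (2 * h) * (2 * h).factorial ^ 3)
      = ((p + 1).ascFactorial (2 * h) * (p - 1).descFactorial (2 * h))
        * (2 * (2 * h)).factorial := by
    rw [h1]
    calc (2 * h).factorial * ((p + 1).ascFactorial (2 * h) * (p - 1).descFactorial (2 * (2 * h)))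
        = (p + 1).ascFactorial (2 * h) *
          ((2 * h).factorial * (p - 1).descFactorial (2 * (2 * h))) := by ring
      _ = (p + 1).ascFactorial (2 * h) *
          ((2 * (2 * h)).factorial * (p - 1).descFactorial (2 * h)) := by rw [b1, b2]
      _ = _ := by ring
  have hp2 : ((p : ZMod (p ^ 2))) ^ 2 = 0 := by
    have : ((p ^ 2 : ℕ) : ZMod (p ^ 2)) = 0 := ZMod.natCast_self _
    exact_mod_cast this
  have h3 : (((p + 1).ascFactorial (2 * h) * (p - 1).descFactorial (2 * h) : ℕ) : ZMod (p ^ 2))
      = ((2 * h).factorial : ZMod (p ^ 2)) ^ 2 := by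
    rw [Nat.ascFactorial_eq_prod_range, Nat.descFactorial_eq_prod_range,
      ← Finset.prod_range_add_one_eq_factorial]
    push_cast
    rw [← Finset.prod_mul_distrib]
    have : ∀ i ∈ range (2 * h), ((p : ZMod (p ^ 2)) + 1 + (i : ZMod (p ^ 2))) *
        (((p - 1 - i : ℕ) : ZMod (p ^ 2))) = (-1) * ((i : ZMod (p ^ 2)) + 1) ^ 2 := by
      intro i hi
      rw [Finset.mem_range] at hi
      have h1 : (p - 1 - i) + (i + 1) = p := by omega
      have h2 := congrArg (Nat.cast : ℕ → ZMod (p ^ 2)) h1
      push_cast at h2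
      linear_combination ((p : ZMod (p ^ 2)) + 1 + (i : ZMod (p ^ 2))) * h2 + hp2
    rw [Finset.prod_congr rfl this, Finset.prod_mul_distrib, Finset.prod_const, Finset.card_range,
      pow_mul, Finset.prod_pow]
    simp
  have a6 : (Nat.centralBinom (2 * h)) * (2 * h).factorial ^ 2 = (2 * (2 * h)).factorial := by
    have := Nat.choose_mul_factorial_mul_factorial (n := 2 * (2 * h)) (k := 2 * h) (by omega)
    rw [show 2 * (2 * h) - 2 * h = 2 * h by omega] at this
    rw [Nat.centralBinom_eq_two_mul_choose, ← this]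
    ring
  have h4 := congrArg (Nat.cast : ℕ → ZMod (p ^ 2)) h2
  rw [Nat.cast_mul (_ * _), h3, ← a6] at h4
  push_cast at h4
  have hu : IsUnit (((2 * h).factorial : ℕ) : ZMod (p ^ 2)) := by
    rw [ZMod.isUnit_iff_coprime]
    apply Nat.Coprime.pow_right
    rw [Nat.coprime_comm, hpf.out.coprime_iff_not_dvd, hpf.out.dvd_factorial]
    omega
  have hu4 : IsUnit ((((2 * h).factorial : ℕ) : ZMod (p ^ 2)) ^ 4) := hu.pow 4
  apply hu4.mul_left_cancel
  linear_combination h4

lemma exists_zeta {h p : ℕ} [hpf : Fact p.Prime] (hp : p = 6 * h + 1) :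
    ∃ z : ZMod p, z * (1 - z) = 1 := by
  have h3 : Fact (Nat.Prime 3) := ⟨Nat.prime_three⟩
  have hcard : 3 ∣ Nat.card (ZMod p)ˣ := by
    rw [Nat.card_eq_fintype_card, ZMod.card_units]
    omega
  obtain ⟨g, hg⟩ := exists_prime_orderOf_dvd_card' 3 hcard
  have hg3 : g ^ 3 = 1 := by rw [← hg]; exact pow_orderOf_eq_one g
  have hg1 : g ≠ 1 := by
    intro h1
    rw [h1, orderOf_one] at hg
    norm_num at hg
  have e1 : ((g : ZMod p)) ^ 3 = 1 := by
    have := congrArg (Units.val) hg3
    simpa using this
  have e2 : (g : ZMod p) - 1 ≠ 0 := by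
    intro h1
    apply hg1
    ext
    simpa using sub_eq_zero.mp h1
  refine ⟨-(g : ZMod p), ?_⟩
  have e3 : ((g : ZMod p) - 1) * ((g : ZMod p) ^ 2 + g + 1) = 0 := by linear_combination e1
  rcases mul_eq_zero.mp e3 with h1 | h1
  · exact absurd h1 e2
  · linear_combination - h1

theorem main (p : ℕ) (hpp : p.Prime) (hp3 : p % 3 = 1) :
    (∑ n ∈ range p, ∑ j ∈ range (n + 1),
      Nat.choose (n + j) j * Nat.choose n j * Nat.choose (n - j) j)
      ≡ Nat.choose (2 * ((p - 1) / 3)) ((p - 1) / 3) [MOD p ^ 2] := by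
  have hpf : Fact p.Prime := ⟨hpp⟩
  obtain ⟨h, hp⟩ : ∃ h, p = 6 * h + 1 := by
    have h2 : p % 2 = 1 := by
      rcases hpp.eq_two_or_odd with h | h
      · subst h; norm_num at hp3
      · exact h
    exact ⟨p / 6, by omega⟩
  rw [sum_eq hp, show (p - 1) / 3 = 2 * h by omega, ← Nat.centralBinom_eq_two_mul_choose,
    ← ZMod.natCast_eq_natCast_iff,
    ← Finset.add_sum_erase _ _ (show 2 * h ∈ range (3 * h + 1) by simp; omega)]
  have hq : ∀ j ∈ (range (3 * h + 1)).erase (2 * h), ∃ q : ℕ, tt p j = p * q ∧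
      (q : ZMod p) = (Nat.centralBinom j : ZMod p) * (3 * (j : ZMod p) + 1)⁻¹ := by
    intro j hj
    simp only [Finset.mem_erase, Finset.mem_range] at hj
    exact tt_regular hp (by omega) hj.1
  choose! q hq1 hq2 using hq
  rw [Finset.sum_congr rfl hq1, ← Finset.mul_sum]
  obtain ⟨z, hz⟩ := exists_zeta (p := p) hp
  have hcore := core_sum (K := ZMod p) hp hz (ZMod.pow_card z)
  rw [← Finset.sum_congr rfl hq2] at hcore
  have hdvd : p ∣ ∑ j ∈ (range (3 * h + 1)).erase (2 * h), q j := by
    rw [← ZMod.natCast_eq_zero_iff]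
    push_cast
    exact hcore
  obtain ⟨r, hr⟩ := hdvd
  rw [hr, Nat.cast_add, tt_exceptional hp]
  have : ((p * (p * r) : ℕ) : ZMod (p ^ 2)) = 0 := by
    rw [ZMod.natCast_eq_zero_iff]
    exact ⟨r, by ring⟩
  rw [this, add_zero]

end Pool.Agent.Lib.MP_2064c1_nt
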